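import Pool.Agent.MP_f49c72_ag.All.PartC

namespace Pool.Agent.Results.MP_f49c72_ag.AffineAll

open Pool.Agent.MP_f49c72_ag

universe u

/-- Over every algebraically closed field there are two distinct components of a Hilbert scheme
of points on affine space containing the same monomial ideals. -/
theorem result (k : Type u) [Field k] [IsAlgClosed k] :
    ∃ n d : ℕ, ∃ Z₁ ∈ irreducibleComponents (HilbA k n d),
      ∃ Z₂ ∈ irreducibleComponents (HilbA k n d), Z₁ ≠ Z₂ ∧
        {I ∈ Z₁ | IsMonomialIdeal I.ideal} = {I ∈ Z₂ | IsMonomialIdeal I.ideal} :=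
  mainA_of k (All.core k)

end Pool.Agent.Results.MP_f49c72_ag.AffineAll
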