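import Pool.Agent.MP_f49c72_ag.Cur.Main

namespace Pool.Agent.Results.MP_f49c72_ag.CurvesP3

open CategoryTheory Limits AlgebraicGeometry Pool.Agent.MP_eba2ed_ag Pool.Agent.MP_f49c72_ag.Cur

/-- Over every algebraically closed field some Hilbert scheme of curves in projective three-space
has two distinct irreducible components, with locally Cohen-Macaulay generic members, that contain
the same saturated monomial ideals. -/
theorem result (k : Type) [Field k] [IsAlgClosed k] : ∃ (d : ℕ) (g : ℤ), 1 ≤ d ∧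
    (∃ (H : Scheme.{0})
      (fam : ∀ R : CommRingCat.{0}, (Spec R ⟶ H) → Ideal (MvPolynomial (Fin 4) R)),
      Represents d g H fam) ∧
    ∀ (H : Scheme.{0})
      (fam : ∀ R : CommRingCat.{0}, (Spec R ⟶ H) → Ideal (MvPolynomial (Fin 4) R)),
      Represents d g H fam →
      ∃ Z₁ ∈ irreducibleComponents (H ⨯ Spec (CommRingCat.of k) : Scheme.{0}),
      ∃ Z₂ ∈ irreducibleComponents (H ⨯ Spec (CommRingCat.of k) : Scheme.{0}),
        Z₁ ≠ Z₂ ∧ Mon fam k Z₁ = Mon fam k Z₂ ∧
        ∀ Z ∈ ({Z₁, Z₂} : Set (Set (H ⨯ Spec (CommRingCat.of k) : Scheme.{0}))),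
          ∃ (K : Type) (_ : Field K) (s : Spec (CommRingCat.of K) ⟶ H ⨯ Spec (CommRingCat.of k)),
            closure (Set.range s) = Z ∧ NoAssPt (fam (CommRingCat.of K) (s ≫ prod.fst)) := by
  obtain ⟨d, g, h1, h2⟩ := main_cur k
  exact ⟨d, g, h1, exists_hilbertScheme d g, h2⟩

end Pool.Agent.Results.MP_f49c72_ag.CurvesP3
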