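import Pool.Agent.MP_f49c72_ag.All.PartD

namespace Pool.Agent.Results.MP_f49c72_ag.ProjectiveAll

open Pool.Agent.MP_f49c72_ag

universe u

/-- Over every algebraically closed field there are two distinct components of a Hilbert scheme
of points of projective space containing the same saturated monomial ideals. -/
theorem result (k : Type u) [Field k] [IsAlgClosed k] :
    ∃ n d : ℕ, ∀ m ≥ 2,
      ∃ Z₁ ∈ @irreducibleComponents _ (zariskiP k n (Polynomial.C (d : ℚ)) m),
      ∃ Z₂ ∈ @irreducibleComponents _ (zariskiP k n (Polynomial.C (d : ℚ)) m), Z₁ ≠ Z₂ ∧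
        {I ∈ Z₁ | IsMonomialIdeal I.ideal} = {I ∈ Z₂ | IsMonomialIdeal I.ideal} :=
  mainP_const k (All.core k)

end Pool.Agent.Results.MP_f49c72_ag.ProjectiveAll
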